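import Pool.Agent.Helper82.SP.GoalsB

/-!
# Project SP (MP_db6300_gt), packet B11b: three independent planes and a sphere
-/

set_option autoImplicit false

namespace Pool.Agent.Helper30.SP

open Matrix Real
open Pool.Agent.Helper26.LU (V M3 SO3 nrm sph proj Bm Rot crossM)
open Pool.Agent.Helper82.SP

theorem an_coord (i : Fin 4) (p : Fin 3) (z : Fin 4 → V) :
    AnalyticAt ℝ (fun z : Fin 4 → V => z i p) z :=
  ((ContinuousLinearMap.proj p : V →L[ℝ] ℝ).comp
    (ContinuousLinearMap.proj i : (Fin 4 → V) →L[ℝ] V)).analyticAt z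

theorem goalB11b (hE : G_EXT) : G_B11b := by
  intro v n k c r i0 U hU hne hind hyp
  set N : Matrix (Fin 3) (Fin 3) ℝ := Matrix.of fun j => n (i0.succAbove j) with hN
  have hli : LinearIndependent ℝ N.row := by
    rw [Fintype.linearIndependent_iff]
    intro g hg j
    have h1 := hind (i0.insertNth 0 g) (by simp) (by
      rw [Fin.sum_univ_succAbove _ i0]
      simp only [Fin.insertNth_apply_same, zero_smul, zero_add, Fin.insertNth_apply_succAbove]
      exact hg)
    have h2 := congrFun h1 (i0.succAbove j)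
    simpa using h2
  have hu : IsUnit N := Matrix.linearIndependent_rows_iff_isUnit.1 hli
  have hdet : IsUnit N.det := (Matrix.isUnit_iff_isUnit_det N).1 hu
  set b : (Fin 4 → V) → V := fun z q => k (i0.succAbove q) -
    ∑ m, n (i0.succAbove q) m * z (i0.succAbove q) m with hb
  set T : (Fin 4 → V) → V := fun z => N⁻¹ *ᵥ b z with hT
  have hNT : ∀ z, N *ᵥ T z = b z := by
    intro z
    rw [hT, Matrix.mulVec_mulVec, Matrix.mul_nonsing_inv _ hdet, Matrix.one_mulVec]
  have hT1 : ∀ z : Fin 4 → V, ∀ i, i ≠ i0 → n i ⬝ᵥ (z i + T z) = k i := by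
    intro z i hi
    obtain ⟨q, rfl⟩ := Fin.exists_succAbove_eq hi
    have h1 : n (i0.succAbove q) ⬝ᵥ T z = b z q := congrFun (hNT z) q
    rw [dotProduct_add, h1, hb]
    simp only [dotProduct]
    ring
  have hT2 : ∀ (z : Fin 4 → V) (t : V), (∀ i, i ≠ i0 → n i ⬝ᵥ (z i + t) = k i) → t = T z := by
    intro z t ht
    have h1 : N *ᵥ t = b z := by
      funext q
      have h2 := ht (i0.succAbove q) (Fin.succAbove_ne i0 q)
      rw [dotProduct_add] at h2
      have h3 : (N *ᵥ t) q = n (i0.succAbove q) ⬝ᵥ t := rfl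
      rw [h3, hb]
      simp only [dotProduct] at h2 ⊢
      linarith
    rw [hT]
    simp only
    rw [← h1, Matrix.mulVec_mulVec, Matrix.nonsing_inv_mul _ hdet, Matrix.one_mulVec]
  set F : (Fin 4 → V) → ℝ := fun z =>
    (z i0 + T z - c) ⬝ᵥ (z i0 + T z - c) - r with hF
  have hFan : AnalyticOnNhd ℝ F Set.univ := by
    intro z _
    have hbq : ∀ q, AnalyticAt ℝ (fun z : Fin 4 → V => b z q) z := by
      intro q
      refine analyticAt_const.sub ?_
      refine Finset.analyticAt_fun_sum _ fun m _ => ?_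
      exact analyticAt_const.mul (an_coord _ _ z)
    have hTp : ∀ p, AnalyticAt ℝ (fun z : Fin 4 → V => T z p) z := by
      intro p
      have : (fun z : Fin 4 → V => T z p) = fun z => ∑ q, N⁻¹ p q * b z q := rfl
      rw [this]
      refine Finset.analyticAt_fun_sum _ fun q _ => ?_
      exact analyticAt_const.mul (hbq q)
    have hcp : ∀ p, AnalyticAt ℝ (fun z : Fin 4 → V => z i0 p + T z p - c p) z := fun p =>
      ((an_coord _ _ z).add (hTp p)).sub analyticAt_const
    have : F = fun z => (∑ p, (z i0 p + T z p - c p) * (z i0 p + T z p - c p)) - r := rfl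
    rw [this]
    refine AnalyticAt.sub ?_ analyticAt_const
    refine Finset.analyticAt_fun_sum _ fun p _ => ?_
    exact (hcp p).mul (hcp p)
  intro R hR
  have h0 := hE F v U hFan hU hne (fun R hRU hR => by
    obtain ⟨t, ht1, ht2⟩ := hyp R hRU hR
    have h3 := hT2 (fun i => R *ᵥ v i) t ht1
    show (R *ᵥ v i0 + T (fun i => R *ᵥ v i) - c) ⬝ᵥ
      (R *ᵥ v i0 + T (fun i => R *ᵥ v i) - c) - r = 0
    rw [← h3, ht2, sub_self]) R hR
  exact ⟨T fun i => R *ᵥ v i, hT1 (fun i => R *ᵥ v i), sub_eq_zero.1 h0⟩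

end Pool.Agent.Helper30.SP
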